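import Pool.Agent.NTS.StmtsE

/-!
# Squad NTS, row NBD
-/

set_option autoImplicit false

open Matrix Filter Topology

namespace Pool.Agent.NTS.H95

open Pool.Agent.PFS Pool.Agent.PFJ Pool.Agent.NTS

theorem nbd (hN : NngStmt) : NbdStmt := by
  intro n C hC K w y k ν hw hy hB hν i0 i1 h0k h1k h10 hpos hz
  classical
  obtain ⟨M, hM, hMC⟩ := hB
  obtain ⟨N, hN0, hNC⟩ := hC.absorb hz (w i0)
  obtain ⟨B, hB⟩ := exists_nat_gt (|ν i0| / ν i1)
  rw [div_lt_iff₀ hpos] at hB
  have hB' : ν i0 < B * ν i1 := lt_of_le_of_lt (le_abs_self _) hB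
  obtain ⟨s, hs⟩ := pow_unbounded_of_one_lt (N * M) (one_lt_two (α := ℝ))
  let t : ℤ := (s : ℤ) + 1
  let u : Fin K → ℤ := fun i => if i = i0 then -t else if i = k then 0 else B * t
  have ht : (0 : ℝ) < (t : ℝ) := by
    have : (0 : ℤ) < t := by positivity
    exact_mod_cast this
  have hu0 : u i0 = -t := by simp [u]
  have huk : u k = 0 := by simp [u, Ne.symm h0k]
  have hu1 : u i1 = B * t := by simp [u, h10, h1k]
  have hsum : 0 < ∑ i, ν i * (u i : ℝ) := by
    rw [← Finset.add_sum_erase _ _ (Finset.mem_univ i0)]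
    have h1 : ν i1 * (u i1 : ℝ) ≤ ∑ i ∈ Finset.univ.erase i0, ν i * (u i : ℝ) := by
      apply Finset.single_le_sum (f := fun i => ν i * (u i : ℝ))
      · intro i hi
        have hi0 := Finset.ne_of_mem_erase hi
        by_cases hik : i = k
        · simp [hik, huk]
        · have hui : u i = B * t := by simp [u, hi0, hik]
          rw [hui]
          have := hν i hik
          push_cast
          positivity
      · exact Finset.mem_erase.2 ⟨h10, Finset.mem_univ _⟩
    rw [hu1] at h1
    rw [hu0]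
    push_cast at h1 ⊢
    nlinarith [mul_pos ht (sub_pos.2 hB')]
  have h2 := hMC u hsum
  rw [huk, _root_.zpow_zero, one_smul] at h2
  have h3 : (∑ i, ((if i = i0 then (-1 : ℝ) else N) + N * M * (2 : ℝ) ^ (u i)) • w i) ∈
      closure C := by
    have h4 := hC.cl_add (subset_closure hNC) (hC.cl_smul h2 hN0.le)
    have h5 : (∑ i, ((if i = i0 then (-1 : ℝ) else N) + N * M * (2 : ℝ) ^ (u i)) • w i) =
        N • ((∑ i ∈ Finset.univ.erase i0, w i) + y) - w i0 + N • (M • pt w u - y) := by
      have h6 : ∑ i, (if i = i0 then (-1 : ℝ) else N) • w i =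
          N • (∑ i ∈ Finset.univ.erase i0, w i) - w i0 := by
        rw [← Finset.add_sum_erase _ _ (Finset.mem_univ i0), Finset.smul_sum, if_pos rfl]
        rw [Finset.sum_congr rfl (g := fun i => N • w i) fun i hi => by
          rw [if_neg (Finset.ne_of_mem_erase hi)]]
        rw [neg_smul, one_smul]
        abel
      have h7 : ∑ i, (N * M * (2 : ℝ) ^ (u i)) • w i = N • M • pt w u := by
        unfold pt
        rw [Finset.smul_sum, Finset.smul_sum]
        refine Finset.sum_congr rfl fun i _ => ?_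
        rw [smul_smul, smul_smul, mul_assoc]
      simp_rw [add_smul, Finset.sum_add_distrib]
      rw [h6, h7, smul_add, smul_sub]
      abel
    rw [h5]
    exact h4
  have h8 := hN n C hC (Fin K) w hw _ h3 i0
  rw [if_pos rfl, hu0] at h8
  have h9 : N * M * (2 : ℝ) ^ (-t) < 1 := by
    rw [_root_.zpow_neg, ← div_eq_mul_inv, div_lt_one (by positivity)]
    calc N * M < (2 : ℝ) ^ s := hs
      _ ≤ (2 : ℝ) ^ (s + 1) := pow_le_pow_right₀ one_le_two (Nat.le_succ s)
      _ = (2 : ℝ) ^ t := by
        have : t = ((s + 1 : ℕ) : ℤ) := by simp [t]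
        rw [this, _root_.zpow_natCast]
  linarith

end Pool.Agent.NTS.H95
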